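import Pool.Agent.K1H14.SE.Stm

/-!
# Project SE: the span of the monomials of degree two and the volume element among the Lie algebras
of skew even elements

Adaptation of `Pool.Agent.K1H59.SD.LIE` (helper59).
-/

set_option autoImplicit false

namespace Pool.Agent.K1H89.SE

open Pool.Agent.K1H14.SD Pool.Agent.K1H14.SE
open scoped symmDiff

universe u

theorem card_sd {d : ℕ} (K L : Finset (Fin d)) :
    (K ∆ L).card + 2 * (K ∩ L).card = K.card + L.card := by
  have h1 : (K ∆ L).card = (K \ L).card + (L \ K).card := by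
    rw [symmDiff_def, Finset.sup_eq_union, Finset.card_union_of_disjoint]
    exact disjoint_sdiff_sdiff
  have h2 := Finset.card_sdiff_add_card_inter K L
  have h3 := Finset.card_sdiff_add_card_inter L K
  rw [Finset.inter_comm L K] at h3
  omega

/-- the sign of the involution for a set of cardinality `2` modulo `4` -/
theorem odd_half {k : ℕ} (h : k % 4 = 2) : Odd (k * (k - 1) / 2) := by
  obtain ⟨m, rfl⟩ : ∃ m, k = 4 * m + 2 := ⟨k / 4, by omega⟩
  have h1 : (4 * m + 2) * (4 * m + 2 - 1) / 2 = (2 * m + 1) * (4 * m + 1) := by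
    have h2 : (4 * m + 2) * (4 * m + 2 - 1) = 2 * ((2 * m + 1) * (4 * m + 1)) := by
      have h3 : 4 * m + 2 - 1 = 4 * m + 1 := by omega
      rw [h3]; ring
    rw [h2, Nat.mul_div_cancel_left _ (by norm_num)]
  rw [h1]
  exact Odd.mul ⟨m, rfl⟩ ⟨2 * m, by ring⟩

/-- the sign of the involution for a set of cardinality `0` modulo `4` -/
theorem even_half {k : ℕ} (h : k % 4 = 0) : Even (k * (k - 1) / 2) := by
  obtain ⟨m, rfl⟩ : ∃ m, k = 4 * m := ⟨k / 4, by omega⟩
  have h1 : 4 * m * (4 * m - 1) / 2 = 2 * (m * (4 * m - 1)) := by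
    have h2 : 4 * m * (4 * m - 1) = 2 * (2 * (m * (4 * m - 1))) := by ring
    rw [h2, Nat.mul_div_cancel_left _ (by norm_num)]
  rw [h1]
  exact even_two_mul _

theorem t_LIEE (h : S_SKEW.{u}) (h' : S_CMB3) : S_LIEE.{u} := by
  intro C _ _ d M st tr N hE htr hev h2 hbr hst hx0' x hx
  obtain ⟨x0, hx0e, hx0, hx0t, hx0N⟩ := hx0'
  by_contra hnot
  have hd := hE.dim
  have hskew : ∀ y ∈ N, y ∈ Submodule.span ℂ
      {x | ∃ K : Finset (Fin d), K.card % 4 = 2 ∧ M K ∈ N ∧ x = M K} :=
    h M st N hE hev hst (fun K hK y hy => hbr _ (h2 K hK) _ hy)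
  have hP2 : ∀ K : Finset (Fin d), K.card = 2 → (K.card % 4 = 2 ∧ M K ∈ N) := fun K hK =>
    ⟨by rw [hK], h2 K hK⟩
  have hPs : ∀ K L : Finset (Fin d), (K.card % 4 = 2 ∧ M K ∈ N) → (L.card % 4 = 2 ∧ M L ∈ N) →
      Odd (K ∩ L).card → ((K ∆ L).card % 4 = 2 ∧ M (K ∆ L) ∈ N) := by
    rintro K L ⟨hK, hKN⟩ ⟨hL, hLN⟩ ho
    refine ⟨?_, ?_⟩
    · have h3 := card_sd K L
      obtain ⟨a, ha⟩ := ho
      omega
    · have h3 := hE.comm K L
      have hKe : Even (K.card * L.card) := by
        refine Even.mul_right ?_ _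
        rw [Nat.even_iff]; omega
      rw [(hKe.add_odd ho).neg_one_pow, neg_smul, one_smul] at h3
      obtain ⟨ε, hε, hm⟩ := hE.mul K L
      have h4 := hbr _ hKN _ hLN
      have h5 : M L * M K = - (M K * M L) := by rw [h3, neg_neg]
      rw [h5, sub_neg_eq_add, ← two_smul ℂ, hm, smul_smul] at h4
      have h6 : (2 : ℂ) * ε ≠ 0 := by
        rcases hε with rfl | rfl <;> norm_num
      exact (Submodule.smul_mem_iff N h6).1 h4
  have hex : ∃ K : Finset (Fin d), (K.card % 4 = 2 ∧ M K ∈ N) ∧ K.card ≠ 2 ∧ K.card ≠ d := by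
    by_contra hcon
    push Not at hcon
    apply hnot
    refine (Submodule.span_le.2 ?_) (hskew x hx)
    rintro _ ⟨K, hK, hKN, rfl⟩
    by_cases hK2 : K.card = 2
    · exact Submodule.mem_sup_left (Submodule.subset_span ⟨K, hK2, rfl⟩)
    · exact Submodule.mem_sup_right (Submodule.subset_span ⟨K, hcon K ⟨hK, hKN⟩ hK2, rfl⟩)
  have hall := h' d (fun K => K.card % 4 = 2 ∧ M K ∈ N) hd hP2 hPs (fun K hK => hK.1) hex
  have key : ∀ y ∈ EvS M, y - st y ∈ N ⊔ Submodule.span ℂ {M Finset.univ} := by
    intro y hy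
    unfold EvS at hy
    induction hy using Submodule.span_induction with
    | mem y hy =>
      obtain ⟨L, hL, rfl⟩ := hy
      rw [hE.st_M L]
      by_cases h4 : L.card % 4 = 2
      · rw [(odd_half h4).neg_one_pow, neg_smul, one_smul, sub_neg_eq_add]
        by_cases h5 : L.card = d
        · have h6 : L = Finset.univ := by
            rw [← Finset.card_eq_iff_eq_univ, Fintype.card_fin]
            exact h5
          rw [h6]
          have h7 : M (Finset.univ : Finset (Fin d)) ∈
              N ⊔ Submodule.span ℂ {M (Finset.univ : Finset (Fin d))} :=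
            Submodule.mem_sup_right (Submodule.mem_span_singleton_self _)
          exact Submodule.add_mem _ h7 h7
        · have h7 := (hall L h4 h5).2
          exact Submodule.mem_sup_left (N.add_mem h7 h7)
      · have h5 : L.card % 4 = 0 := by
          rw [Nat.even_iff] at hL
          omega
        rw [(even_half h5).neg_one_pow, one_smul, sub_self]
        exact Submodule.zero_mem _
    | zero => rw [map_zero, sub_zero]; exact Submodule.zero_mem _
    | add y z _ _ hy hz =>
      rw [map_add, add_sub_add_comm]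
      exact Submodule.add_mem _ hy hz
    | smul c y _ hy =>
      rw [map_smul, ← smul_sub]
      exact Submodule.smul_mem _ c hy
  have h3 := key x0 hx0e
  rw [hx0, sub_neg_eq_add, ← two_smul ℂ] at h3
  obtain ⟨n, hn, z, hz, hnz⟩ := Submodule.mem_sup.1 h3
  obtain ⟨c, rfl⟩ := Submodule.mem_span_singleton.1 hz
  by_cases hu : M (Finset.univ : Finset (Fin d)) ∈ N
  · apply hx0N
    have h4 : (2 : ℂ) • x0 ∈ N := by
      rw [← hnz]
      exact N.add_mem hn (N.smul_mem c hu)
    exact (Submodule.smul_mem_iff N two_ne_zero).1 h4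
  · have hn0 : tr (n * M Finset.univ) = 0 := by
      have hns := hskew n hn
      clear hnz hn
      induction hns using Submodule.span_induction with
      | mem y hy =>
        obtain ⟨K, hK, hKN, rfl⟩ := hy
        obtain ⟨ε, _, hm⟩ := hE.mul K Finset.univ
        rw [hm, map_smul, htr.1, if_neg, smul_zero]
        intro h0
        rw [← Finset.bot_eq_empty, symmDiff_eq_bot] at h0
        rw [h0] at hKN
        exact hu hKN
      | zero => rw [zero_mul, map_zero]
      | add y z _ _ hy hz => rw [add_mul, map_add, hy, hz, add_zero]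
      | smul c y _ hy => rw [smul_mul_assoc, map_smul, hy, smul_zero]
    have h4 : (0 : ℂ) = c * tr (M Finset.univ * M Finset.univ) := by
      have h5 := congrArg (fun y => tr (y * M Finset.univ)) hnz
      simp only [add_mul, map_add, smul_mul_assoc, map_smul, hn0, hx0t, zero_add, smul_eq_mul,
        mul_zero] at h5
      exact h5.symm
    have h5 : tr (M Finset.univ * M Finset.univ) ≠ 0 := by
      obtain ⟨ε, hε, hm⟩ := hE.mul Finset.univ Finset.univ
      rw [hm, map_smul, htr.1, if_pos (by rw [symmDiff_self, Finset.bot_eq_empty])]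
      rcases hε with rfl | rfl <;> simp
    have hc : c = 0 := by
      rcases mul_eq_zero.1 h4.symm with h6 | h6
      · exact h6
      · exact absurd h6 h5
    apply hx0N
    rw [hc, zero_smul, add_zero] at hnz
    rw [hnz] at hn
    exact (Submodule.smul_mem_iff N two_ne_zero).1 hn

end Pool.Agent.K1H89.SE
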